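import Pool.Agent.H88.Qsum

open Pool.Agent.H88.Qsum

theorem Pool.Agent.Results.MP_3dc8bf_an.Counter.result (𝕜 : Type) [RCLike 𝕜] (p : ℝ)
    (hp : 2 ≤ p) :
    ∃ T : ContinuousMultilinearMap 𝕜 (fun _ : Fin 2 => BoundedContinuousFunction ℕ 𝕜)
        (BoundedContinuousFunction (ℕ × ℕ) 𝕜),
      QuasiSumming p T ∧ ¬ StronglyMultiple p T :=
  ⟨TT p (by linarith), quasi _, not_strong hp _⟩
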