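import Mathlib

set_option autoImplicit false

open scoped ENNReal NNReal BoundedContinuousFunction
open Finset

namespace Pool.Agent.Results.MP_3dc8bf_an.NotCoincide

/-- The weak `ℓ_p` norm of a sequence in `E`, valued in `[0, ∞]`. -/
noncomputable def weakNorm (K : Type) [RCLike K] {E : Type} [NormedAddCommGroup E]
    [NormedSpace K E] (p : ℝ) (x : ℕ → E) : ℝ≥0∞ :=
  ⨆ φ : {φ : E →L[K] K // ‖φ‖ ≤ 1}, (∑' j, ‖φ.1 (x j)‖ₑ ^ p) ^ (1 / p)

/-- `T` is `k`-absolutely `p`-summing. -/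
def IsKAbsSumming {K : Type} [RCLike K] {n : ℕ} {E : Fin n → Type}
    [∀ i, NormedAddCommGroup (E i)] [∀ i, NormedSpace K (E i)] {F : Type}
    [NormedAddCommGroup F] [NormedSpace K F] (p : ℝ) (k : Fin n)
    (T : ContinuousMultilinearMap K E F) : Prop :=
  ∃ C : ℝ≥0, ∀ (a : ∀ i, E i) (x : ℕ → E k), weakNorm K p x < ⊤ →
    (∑' j, ‖T (Function.update a k (x j))‖ₑ ^ p) ^ (1 / p) ≤
      C * weakNorm K p x * ∏ i ∈ univ.erase k, ‖a i‖ₑ

/-- `T` is quasi-absolutely `p`-summing. -/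
def IsQuasiAbsSumming {K : Type} [RCLike K] {n : ℕ} {E : Fin n → Type}
    [∀ i, NormedAddCommGroup (E i)] [∀ i, NormedSpace K (E i)] {F : Type}
    [NormedAddCommGroup F] [NormedSpace K F] (p : ℝ)
    (T : ContinuousMultilinearMap K E F) : Prop :=
  ∀ k : Fin n, IsKAbsSumming p k T

/-- `T` is strongly multiple `p`-summing. -/
def IsStronglyMultipleSumming {K : Type} [RCLike K] {n : ℕ} {E : Fin n → Type}
    [∀ i, NormedAddCommGroup (E i)] [∀ i, NormedSpace K (E i)] {F : Type}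
    [NormedAddCommGroup F] [NormedSpace K F] (p : ℝ)
    (T : ContinuousMultilinearMap K E F) : Prop :=
  ∃ C : ℝ≥0, ∀ (m : ℕ) (x : ∀ k, Fin m → E k),
    (∑ j : Fin n → Fin m, ‖T (fun k => x k (j k))‖ₑ ^ p) ^ (1 / p) ≤
      C * ⨆ φ : {φ : ContinuousMultilinearMap K E K // ‖φ‖ ≤ 1},
        (∑ j : Fin n → Fin m, ‖φ.1 (fun k => x k (j k))‖ₑ ^ p) ^ (1 / p)

section aux

variable {K : Type} [RCLike K] {n : ℕ}

/-- weights -/
noncomputable def wt (p : ℝ) (t : ℕ) : ℝ := ((t : ℝ) + 1) ^ (-(3 / 2 / p))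

lemma wt_pos (p : ℝ) (t : ℕ) : 0 < wt p t := Real.rpow_pos_of_pos (by positivity) _

lemma wt_anti {p : ℝ} (hp : 0 < p) {s t : ℕ} (h : s ≤ t) : wt p t ≤ wt p s := by
  unfold wt
  apply Real.rpow_le_rpow_of_nonpos (by positivity)
  · have : (s : ℝ) ≤ t := by exact_mod_cast h
    linarith
  · have : 0 < 3 / 2 / p := by positivity
    linarith

lemma wt_le_one {p : ℝ} (hp : 0 < p) (t : ℕ) : wt p t ≤ 1 := by
  have := wt_anti hp (Nat.zero_le t)
  simpa [wt] using this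

lemma wt_pow {p : ℝ} (hp : 0 < p) (t : ℕ) : wt p t ^ p = ((t : ℝ) + 1) ^ (-(3 / 2 : ℝ)) := by
  unfold wt
  rw [← Real.rpow_mul (by positivity)]
  congr 1
  field_simp

lemma coord_le {p : ℝ} (hp : 0 < p) (x : Fin n → (ℕ →ᵇ K)) (j : Fin n → ℕ) :
    ‖((wt p (univ.sup j) : ℝ) : K) * ∏ i, x i (j i)‖ ≤ ∏ i, ‖x i‖ := by
  rw [norm_mul, norm_prod, RCLike.norm_ofReal, abs_of_pos (wt_pos _ _)]
  calc wt p (univ.sup j) * ∏ i, ‖x i (j i)‖ ≤ 1 * ∏ i, ‖x i‖ := by
        apply mul_le_mul (wt_le_one hp _) _ (prod_nonneg fun i _ => norm_nonneg _) zero_le_one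
        exact prod_le_prod (fun i _ => norm_nonneg _) fun i _ => (x i).norm_coe_le_norm _
    _ = _ := one_mul _

noncomputable def Tfun {p : ℝ} (hp : 0 < p) (x : Fin n → (ℕ →ᵇ K)) : (Fin n → ℕ) →ᵇ K :=
  BoundedContinuousFunction.ofNormedAddCommGroupDiscrete
    (fun j => ((wt p (univ.sup j) : ℝ) : K) * ∏ i, x i (j i)) (∏ i, ‖x i‖) (coord_le hp x)

lemma Tfun_apply {p : ℝ} (hp : 0 < p) (x : Fin n → (ℕ →ᵇ K)) (j : Fin n → ℕ) :
    Tfun hp x j = ((wt p (univ.sup j) : ℝ) : K) * ∏ i, x i (j i) := rfl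

lemma prod_update (x : Fin n → (ℕ →ᵇ K)) (k : Fin n) (y : ℕ →ᵇ K) (j : Fin n → ℕ) :
    ∏ i, (Function.update x k y) i (j i) = y (j k) * ∏ i ∈ univ.erase k, x i (j i) := by
  rw [← mul_prod_erase univ _ (mem_univ k)]
  congr 1
  · simp
  · apply prod_congr rfl
    intro i hi
    rw [Function.update_of_ne (ne_of_mem_erase hi)]

noncomputable def Tmul {p : ℝ} (hp : 0 < p) :
    MultilinearMap K (fun _ : Fin n => (ℕ →ᵇ K)) ((Fin n → ℕ) →ᵇ K) :=
  MultilinearMap.mk' (fun x => Tfun hp x)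
    (by
      intro x k y z
      ext j
      simp only [BoundedContinuousFunction.add_apply, Tfun_apply, prod_update]
      ring)
    (by
      intro x k c y
      ext j
      simp only [BoundedContinuousFunction.smul_apply, Tfun_apply, prod_update, smul_eq_mul]
      ring)

noncomputable def Tc {p : ℝ} (hp : 0 < p) :
    ContinuousMultilinearMap K (fun _ : Fin n => (ℕ →ᵇ K)) ((Fin n → ℕ) →ᵇ K) :=
  (Tmul hp).mkContinuous 1 (by
    intro x
    rw [one_mul]
    exact (BoundedContinuousFunction.norm_le (prod_nonneg fun i _ => norm_nonneg _)).2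
      (coord_le hp x))

lemma Tc_apply {p : ℝ} (hp : 0 < p) (x : Fin n → (ℕ →ᵇ K)) (j : Fin n → ℕ) :
    Tc hp x j = ((wt p (univ.sup j) : ℝ) : K) * ∏ i, x i (j i) := rfl

lemma enorm_bcf_le {α : Type} [TopologicalSpace α] (f : α →ᵇ K) (c : ℝ≥0∞)
    (h : ∀ a, ‖f a‖ₑ ≤ c) : ‖f‖ₑ ≤ c := by
  rcases eq_or_ne c ⊤ with rfl | hc
  · exact le_top
  lift c to ℝ≥0 using hc
  rw [enorm_eq_nnnorm, ENNReal.coe_le_coe]
  have : ‖f‖ ≤ (c : ℝ) := by
    refine (BoundedContinuousFunction.norm_le c.2).2 fun a => ?_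
    have := h a
    rw [enorm_eq_nnnorm, ENNReal.coe_le_coe] at this
    exact_mod_cast this
  exact_mod_cast this

lemma summable_wt {p : ℝ} (hp : 0 < p) : Summable fun t : ℕ => wt p t ^ p := by
  simp only [wt_pow hp]
  have h : Summable fun t : ℕ => ((t : ℝ)) ^ (-(3 / 2 : ℝ)) :=
    Real.summable_nat_rpow.2 (by norm_num)
  have := (summable_nat_add_iff 1).2 h
  simpa using this

lemma quasi {p : ℝ} (hp : 0 < p) : IsQuasiAbsSumming p (Tc (K := K) (n := n) hp) := by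
  intro k
  set S : ℝ≥0∞ := ∑' t : ℕ, ENNReal.ofReal (wt p t) ^ p with hS
  have hSfin : S ≠ ⊤ := by
    have : S = ∑' t : ℕ, ENNReal.ofReal (wt p t ^ p) := by
      apply tsum_congr
      intro t
      rw [ENNReal.ofReal_rpow_of_pos (wt_pos _ _)]
    rw [this, ← ENNReal.ofReal_tsum_of_nonneg (fun t => (Real.rpow_pos_of_pos (wt_pos _ _) _).le)
      (summable_wt hp)]
    exact ENNReal.ofReal_ne_top
  have hS1 : S ^ (1 / p) ≠ ⊤ := ENNReal.rpow_ne_top_of_nonneg (by positivity) hSfin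
  refine ⟨(S ^ (1 / p)).toNNReal, fun a x _ => ?_⟩
  rw [ENNReal.coe_toNNReal hS1]
  set A : ℝ≥0∞ := ∏ i ∈ univ.erase k, ‖a i‖ₑ with hA
  set w := weakNorm K p x with hw
  have hev : ∀ t : ℕ, ∑' j, ‖x j t‖ₑ ^ p ≤ w ^ p := by
    intro t
    have h1 : (∑' j, ‖x j t‖ₑ ^ p) ^ (1 / p) ≤ w := by
      have hn : ‖(BoundedContinuousFunction.evalCLM K t : (ℕ →ᵇ K) →L[K] K)‖ ≤ 1 := by
        apply ContinuousLinearMap.opNorm_le_bound _ zero_le_one
        intro f
        rw [one_mul]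
        exact f.norm_coe_le_norm t
      exact le_iSup (fun φ : {φ : (ℕ →ᵇ K) →L[K] K // ‖φ‖ ≤ 1} =>
        (∑' j, ‖φ.1 (x j)‖ₑ ^ p) ^ (1 / p)) ⟨_, hn⟩
    have h2 := ENNReal.rpow_le_rpow h1 hp.le
    rwa [← ENNReal.rpow_mul, one_div, inv_mul_cancel₀ hp.ne', ENNReal.rpow_one] at h2
  have hpt : ∀ y : ℕ →ᵇ K, ‖Tc hp (Function.update a k y)‖ₑ ^ p ≤
      (∑' t : ℕ, ENNReal.ofReal (wt p t) ^ p * ‖y t‖ₑ ^ p) * A ^ p := by
    intro y
    set B := ∑' t : ℕ, ENNReal.ofReal (wt p t) ^ p * ‖y t‖ₑ ^ p with hB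
    have h1 : ‖Tc hp (Function.update a k y)‖ₑ ≤ B ^ (1 / p) * A := by
      apply enorm_bcf_le
      intro j
      rw [Tc_apply, prod_update, ← mul_assoc, enorm_mul, enorm_mul]
      apply mul_le_mul'
      · have h3 : ‖((wt p (univ.sup j) : ℝ) : K)‖ₑ ≤ ENNReal.ofReal (wt p (j k)) := by
          rw [← ofReal_norm, RCLike.norm_ofReal, abs_of_pos (wt_pos _ _)]
          exact ENNReal.ofReal_le_ofReal (wt_anti hp (le_sup (f := j) (mem_univ k)))
        have h4 : (ENNReal.ofReal (wt p (j k)) * ‖y (j k)‖ₑ) ^ p ≤ B := by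
          rw [ENNReal.mul_rpow_of_nonneg _ _ hp.le]
          exact ENNReal.le_tsum (f := fun t => ENNReal.ofReal (wt p t) ^ p * ‖y t‖ₑ ^ p) (j k)
        have h5 := ENNReal.rpow_le_rpow h4 (by positivity : 0 ≤ 1 / p)
        rw [← ENNReal.rpow_mul, one_div, mul_inv_cancel₀ hp.ne', ENNReal.rpow_one, ← one_div] at h5
        exact (mul_le_mul' h3 le_rfl).trans h5
      · have hprod : ‖∏ i ∈ univ.erase k, a i (j i)‖ₑ = ∏ i ∈ univ.erase k, ‖a i (j i)‖ₑ := by
          simp only [enorm_eq_nnnorm, nnnorm_prod, ENNReal.ofNNReal_finsetProd]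
        rw [hprod]
        apply prod_le_prod'
        intro i _
        rw [← ofReal_norm, ← ofReal_norm]
        exact ENNReal.ofReal_le_ofReal ((a i).norm_coe_le_norm _)
    have h2 := ENNReal.rpow_le_rpow h1 hp.le
    rwa [ENNReal.mul_rpow_of_nonneg _ _ hp.le, ← ENNReal.rpow_mul, one_div,
      inv_mul_cancel₀ hp.ne', ENNReal.rpow_one] at h2
  have hsum : ∑' j, ‖Tc hp (Function.update a k (x j))‖ₑ ^ p ≤ S * w ^ p * A ^ p := by
    refine (ENNReal.tsum_le_tsum fun j => hpt (x j)).trans ?_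
    rw [ENNReal.tsum_mul_right]
    apply mul_le_mul' _ le_rfl
    rw [ENNReal.tsum_comm, hS, ← ENNReal.tsum_mul_right]
    apply ENNReal.tsum_le_tsum
    intro t
    rw [ENNReal.tsum_mul_left]
    exact mul_le_mul' le_rfl (hev t)
  have h6 := ENNReal.rpow_le_rpow hsum (by positivity : 0 ≤ 1 / p)
  refine h6.trans (le_of_eq ?_)
  rw [ENNReal.mul_rpow_of_nonneg _ _ (by positivity), ENNReal.mul_rpow_of_nonneg _ _ (by positivity),
    ← ENNReal.rpow_mul, ← ENNReal.rpow_mul, one_div, mul_inv_cancel₀ hp.ne', ENNReal.rpow_one,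
    ENNReal.rpow_one]

/-- unit vectors -/
noncomputable def ev (K : Type) [RCLike K] (t : ℕ) : ℕ →ᵇ K :=
  BoundedContinuousFunction.ofNormedAddCommGroupDiscrete
    (fun s => if s = t then 1 else 0) 1 (by intro s; split_ifs <;> simp)

lemma ev_apply (t s : ℕ) : ev K t s = if s = t then 1 else 0 := rfl

/-- signs -/
def sg (b : Bool) : ℝ := if b then 1 else -1

lemma sg_not (b : Bool) : sg (!b) = -sg b := by cases b <;> simp [sg]

lemma sg_sq (b : Bool) : sg b * sg b = 1 := by cases b <;> simp [sg]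

def chi {m : ℕ} (ε : Fin n × Fin m → Bool) (j : Fin n → Fin m) : ℝ := ∏ i, sg (ε (i, j i))

lemma chi_orth {m : ℕ} (j j' : Fin n → Fin m) (h : j ≠ j') :
    ∑ ε : Fin n × Fin m → Bool, chi ε j * chi ε j' = 0 := by
  obtain ⟨i0, hi0⟩ := Function.ne_iff.1 h
  let σ : (Fin n × Fin m → Bool) → (Fin n × Fin m → Bool) :=
    fun ε => Function.update ε (i0, j i0) (!ε (i0, j i0))
  have h1 : ∀ ε, chi (σ ε) j' = chi ε j' := by
    intro ε
    apply prod_congr rfl
    intro i _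
    have : (i, j' i) ≠ (i0, j i0) := by
      intro e
      obtain ⟨e1, e2⟩ := Prod.mk.inj e
      subst e1
      exact hi0 e2.symm
    simp only [σ, Function.update_of_ne this]
  have h2 : ∀ ε, chi (σ ε) j = -chi ε j := by
    intro ε
    unfold chi
    rw [← mul_prod_erase univ _ (mem_univ i0), ← mul_prod_erase univ _ (mem_univ i0)]
    have : ∏ i ∈ univ.erase i0, sg (σ ε (i, j i)) = ∏ i ∈ univ.erase i0, sg (ε (i, j i)) := by
      apply prod_congr rfl
      intro i hi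
      have : (i, j i) ≠ (i0, j i0) := fun e => ne_of_mem_erase hi (Prod.mk.inj e).1
      simp only [σ, Function.update_of_ne this]
    rw [this]
    simp only [σ, Function.update_self, sg_not]
    ring
  have hinv : Function.Involutive σ := by
    intro ε
    simp [σ]
  have h3 := (Equiv.sum_comp hinv.toPerm fun ε => chi ε j * chi ε j').symm
  simp only [Function.Involutive.coe_toPerm, h1, h2, neg_mul, sum_neg_distrib] at h3
  linarith

lemma chi_sq {m : ℕ} (ε : Fin n × Fin m → Bool) (j : Fin n → Fin m) : chi ε j * chi ε j = 1 := by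
  unfold chi
  rw [← prod_mul_distrib]
  simp [sg_sq]

lemma avg_real {m : ℕ} (c : (Fin n → Fin m) → ℝ) :
    ∑ ε : Fin n × Fin m → Bool, (∑ j, chi ε j * c j) ^ 2 =
      (Fintype.card (Fin n × Fin m → Bool) : ℝ) * ∑ j, c j ^ 2 := by
  have : ∀ ε : Fin n × Fin m → Bool, (∑ j, chi ε j * c j) ^ 2 =
      ∑ j, ∑ j', (chi ε j * chi ε j') * (c j * c j') := by
    intro ε
    rw [sq, sum_mul_sum]
    refine sum_congr rfl fun j _ => sum_congr rfl fun j' _ => by ring
  simp only [this]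
  rw [sum_comm, mul_sum]
  refine sum_congr rfl fun j _ => ?_
  rw [sum_comm, sum_eq_single j]
  · simp [chi_sq, sq]
  · intro j' _ hj
    rw [← sum_mul, chi_orth j j' (Ne.symm hj), zero_mul]
  · simp

lemma form_bound {m : ℕ} (φ : ContinuousMultilinearMap K (fun _ : Fin n => (ℕ →ᵇ K)) K)
    (hφ : ‖φ‖ ≤ 1) : ∑ j : Fin n → Fin m, ‖φ (fun k => ev K (j k))‖ ^ 2 ≤ 1 := by
  set c : (Fin n → Fin m) → K := fun j => φ (fun k => ev K (j k)) with hc
  have h1 : ∀ ε : Fin n × Fin m → Bool, ‖∑ j, ((chi ε j : ℝ) : K) * c j‖ ≤ 1 := by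
    intro ε
    have e1 : φ (fun i => ∑ t : Fin m, ((sg (ε (i, t)) : ℝ) : K) • ev K t) =
        ∑ j, ((chi ε j : ℝ) : K) * c j := by
      rw [φ.map_sum]
      refine sum_congr rfl fun j _ => ?_
      rw [φ.map_smul_univ]
      simp [chi, hc]
    rw [← e1]
    refine (φ.le_opNorm _).trans ?_
    have : ∏ i, ‖∑ t : Fin m, ((sg (ε (i, t)) : ℝ) : K) • ev K t‖ ≤ 1 := by
      apply prod_le_one (fun i _ => norm_nonneg _)
      intro i _
      refine (BoundedContinuousFunction.norm_le zero_le_one).2 fun s => ?_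
      rw [BoundedContinuousFunction.sum_apply]
      simp only [BoundedContinuousFunction.smul_apply, ev_apply, smul_eq_mul, mul_ite, mul_one,
        mul_zero]
      by_cases hs : s < m
      · rw [sum_eq_single (⟨s, hs⟩ : Fin m)]
        · simp only [if_true, RCLike.norm_ofReal]
          cases ε (i, ⟨s, hs⟩) <;> simp [sg]
        · intro t _ ht
          rw [if_neg]
          intro e
          exact ht (Fin.ext e.symm)
        · simp
      · rw [sum_eq_zero]
        · simp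
        · intro t _
          rw [if_neg]
          intro e
          exact hs (e ▸ t.2)
    calc ‖φ‖ * _ ≤ 1 * 1 := mul_le_mul hφ this (prod_nonneg fun i _ => norm_nonneg _) zero_le_one
      _ = 1 := one_mul _
  have h2 : ∀ ε : Fin n × Fin m → Bool, (∑ j, chi ε j * RCLike.re (c j)) ^ 2 +
      (∑ j, chi ε j * RCLike.im (c j)) ^ 2 ≤ 1 := by
    intro ε
    have a1 : RCLike.re (∑ j, ((chi ε j : ℝ) : K) * c j) = ∑ j, chi ε j * RCLike.re (c j) := by
      rw [map_sum]; simp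
    have a2 : RCLike.im (∑ j, ((chi ε j : ℝ) : K) * c j) = ∑ j, chi ε j * RCLike.im (c j) := by
      rw [map_sum]; simp
    rw [← a1, ← a2, sq, sq, ← RCLike.normSq_apply, RCLike.normSq_eq_def']
    exact pow_le_one₀ (norm_nonneg _) (h1 ε)
  have h3 := sum_le_sum (s := univ) fun ε _ => h2 ε
  rw [sum_add_distrib, avg_real, avg_real, ← mul_add, ← sum_add_distrib] at h3
  simp only [sum_const, card_univ, nsmul_eq_mul] at h3
  have hpos : (0 : ℝ) < Fintype.card (Fin n × Fin m → Bool) := by exact_mod_cast Fintype.card_pos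
  have h4 := le_of_mul_le_mul_left h3 hpos
  refine le_trans (le_of_eq ?_) h4
  refine sum_congr rfl fun j _ => ?_
  rw [← RCLike.normSq_eq_def', RCLike.normSq_apply]
  ring

lemma form_bound_p {p : ℝ} (hp : 2 ≤ p) {m : ℕ}
    (φ : ContinuousMultilinearMap K (fun _ : Fin n => (ℕ →ᵇ K)) K)
    (hφ : ‖φ‖ ≤ 1) :
    (∑ j : Fin n → Fin m, ‖φ (fun k => ev K (j k))‖ₑ ^ p) ^ (1 / p) ≤ 1 := by
  have h1 := form_bound (m := m) φ hφ
  apply ENNReal.rpow_le_one _ (by positivity)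
  have h2 : ∀ j : Fin n → Fin m, ‖φ (fun k => ev K (j k))‖ₑ ^ p ≤
      ENNReal.ofReal (‖φ (fun k => ev K (j k))‖ ^ 2) := by
    intro j
    have h3 : ‖φ (fun k => ev K (j k))‖ ^ 2 ≤ 1 :=
      (single_le_sum (f := fun j : Fin n → Fin m => ‖φ (fun k => ev K (j k))‖ ^ 2)
        (fun _ _ => sq_nonneg _) (mem_univ j)).trans h1
    have h4 : ‖φ (fun k => ev K (j k))‖ ≤ 1 := by
      nlinarith [norm_nonneg (φ (fun k => ev K (j k)))]
    rw [← ofReal_norm, ENNReal.ofReal_pow (norm_nonneg _), ← ENNReal.rpow_natCast]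
    apply ENNReal.rpow_le_rpow_of_exponent_ge (ENNReal.ofReal_le_one.2 h4)
    exact_mod_cast hp
  refine (sum_le_sum fun j _ => h2 j).trans ?_
  rw [← ENNReal.ofReal_sum_of_nonneg (fun _ _ => sq_nonneg _)]
  exact ENNReal.ofReal_le_one.2 h1

lemma not_strong {p : ℝ} (hp : 2 ≤ p) (hp0 : 0 < p) (hn : 2 ≤ n) :
    ¬ IsStronglyMultipleSumming p (Tc (K := K) (n := n) hp0) := by
  rintro ⟨C, hC⟩
  have key : ∀ m : ℕ, ((m : ℝ) + 1) ^ (1 / 2 : ℝ) ≤ (C : ℝ) ^ p := by
    intro m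
    have h1 := hC (m + 1) (fun _ t => ev K t)
    have h2 : (⨆ φ : {φ : ContinuousMultilinearMap K (fun _ : Fin n => (ℕ →ᵇ K)) K // ‖φ‖ ≤ 1},
        (∑ j : Fin n → Fin (m + 1), ‖φ.1 (fun k => ev K (j k))‖ₑ ^ p) ^ (1 / p)) ≤ 1 :=
      iSup_le fun φ => form_bound_p hp φ.1 φ.2
    have h3 := h1.trans (mul_le_mul' le_rfl h2)
    rw [mul_one] at h3
    have h4 := ENNReal.rpow_le_rpow h3 hp0.le
    rw [← ENNReal.rpow_mul, one_div, inv_mul_cancel₀ hp0.ne', ENNReal.rpow_one] at h4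
    have h5 : ∀ j : Fin n → Fin (m + 1), ENNReal.ofReal (wt p m ^ p) ≤
        ‖Tc hp0 (fun k => ev K (j k))‖ₑ ^ p := by
      intro j
      rw [← ENNReal.ofReal_rpow_of_pos (wt_pos _ _)]
      apply ENNReal.rpow_le_rpow _ hp0.le
      rw [← ofReal_norm]
      apply ENNReal.ofReal_le_ofReal
      refine le_trans ?_ ((Tc hp0 (fun k => ev K (j k))).norm_coe_le_norm (fun k => (j k : ℕ)))
      rw [Tc_apply]
      simp only [ev_apply, if_true, prod_const_one, mul_one, RCLike.norm_ofReal,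
        abs_of_pos (wt_pos _ _)]
      apply wt_anti hp0
      apply Finset.sup_le
      intro k _
      exact Nat.lt_succ_iff.1 (j k).2
    have h6 := (sum_le_sum (s := univ) fun j _ => h5 j).trans h4
    rw [← ENNReal.ofReal_sum_of_nonneg (fun _ _ => (Real.rpow_pos_of_pos (wt_pos _ _) _).le),
      ← ENNReal.ofReal_coe_nnreal, ENNReal.ofReal_rpow_of_nonneg C.coe_nonneg hp0.le,
      ENNReal.ofReal_le_ofReal_iff (Real.rpow_nonneg C.coe_nonneg _)] at h6
    refine le_trans ?_ h6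
    simp only [sum_const, card_univ, Fintype.card_fun, Fintype.card_fin, nsmul_eq_mul, wt_pow hp0]
    have hm : (1 : ℝ) ≤ (m : ℝ) + 1 := by
      have : (0 : ℝ) ≤ m := Nat.cast_nonneg m
      linarith
    have e1 : ((m : ℝ) + 1) ^ (1 / 2 : ℝ) = ((m : ℝ) + 1) ^ 2 * ((m : ℝ) + 1) ^ (-(3 / 2 : ℝ)) := by
      rw [← Real.rpow_natCast, ← Real.rpow_add (by positivity)]
      norm_num
    rw [e1]
    apply mul_le_mul_of_nonneg_right _ (by positivity)
    push_cast
    exact pow_le_pow_right₀ hm hn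
  obtain ⟨m, hm⟩ := exists_nat_gt (((C : ℝ) ^ p) ^ 2)
  have h1 := key m
  have h2 : (((m : ℝ) + 1) ^ (1 / 2 : ℝ)) ^ 2 ≤ ((C : ℝ) ^ p) ^ 2 :=
    pow_le_pow_left₀ (by positivity) h1 2
  rw [← Real.rpow_natCast, ← Real.rpow_mul (by positivity)] at h2
  norm_num at h2
  linarith

end aux

/-- For real and complex scalars, every `p ≥ 2` and every `n ≥ 2` there are Banach spaces and a
bounded `n`-linear map that is quasi-absolutely but not strongly multiple `p`-summing. -/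
theorem result (K : Type) [RCLike K] (p : ℝ) (hp : 2 ≤ p) (n : ℕ) (hn : 2 ≤ n) :
    ∃ (E : Fin n → Type) (_ : ∀ i, NormedAddCommGroup (E i)) (_ : ∀ i, NormedSpace K (E i))
      (_ : ∀ i, CompleteSpace (E i)) (F : Type) (_ : NormedAddCommGroup F) (_ : NormedSpace K F)
      (_ : CompleteSpace F) (T : ContinuousMultilinearMap K E F),
      IsQuasiAbsSumming p T ∧ ¬ IsStronglyMultipleSumming p T := by
  have hp0 : 0 < p := by linarith
  exact ⟨fun _ => ℕ →ᵇ K, inferInstance, inferInstance, inferInstance, (Fin n → ℕ) →ᵇ K,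
    inferInstance, inferInstance, inferInstance, Tc hp0, quasi hp0, not_strong hp hp0 hn⟩

end Pool.Agent.Results.MP_3dc8bf_an.NotCoincide
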